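import Pool.Agent.Helper341.Alt.Final
set_option autoImplicit false

/-!
The free alternative algebra of infinite rank over a commutative ring `Φ` is not separated, for every `Φ` with
`1 ≠ 0`: the associator ideal meets the largest nuclear ideal in a nonzero ideal.

Proof outline. Put `q(u,v;b,c) = [u,b][v,c] + [u,(v,b,c)]` and `N(a;b,c) = [q(a,a;b,c),a]`. Over every alternative ring:
(I1) `N(a;b,c)` is nuclear; (H) `N(a;·,·)` is a Hochschild 2-cocycle, hence (I2) `N(a;b,c)(c,y,z) = 0`;
(I3) `N(a;b,(x,y,z)) = 0`; (I5) in characteristic two the derivative `n(a,b;s,w,c)` of `N(a;b,c)` in `a` in the direction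
of the associator `(b,s,w)` vanishes when `c` is a commutator. These are proved by certificates (integral, or mod 2
for (I5)) checked by the kernel. The elements `n(c) = n(a,b;s,w,c)` then form a family of nuclear elements of the
associator ideal; if `2 ≠ 0`, or in characteristic two, it produces a nonzero nuclear element of the associator ideal
which annihilates all associators; such an element generates an ideal contained in the nucleus. Finally
`n(a,b;s,w,c) ≠ 0` for generators, over every nonzero base ring: its value in an explicit 167-dimensional integral
alternative ring is minus a basis vector.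
-/

namespace Pool.Agent.Results.MP_c4e11e_al.NotSeparated
open Pool.Agent.Helper928.Nuc.Free Pool.Agent.Helper817 Pool.Agent.Helper341.Alt

theorem result (Φ : Type) [CommRing Φ] (X : Type) [Infinite X] :
    Uideal Φ (FreeAlt Φ X) ⊓ Dideal Φ (FreeAlt Φ X) ≠ ⊥ ↔ Nontrivial Φ := by
  constructor
  · intro h
    by_contra hn
    rw [not_nontrivial_iff_subsingleton] at hn
    have : Subsingleton (FreeAlt Φ X) := Module.subsingleton Φ _
    exact h Submodule.eq_bot_of_subsingleton
  · intro h
    exact AllPhi.all Final.i3 Final.i5 Φ X

end Pool.Agent.Results.MP_c4e11e_al.NotSeparated
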