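import Pool.Agent.Helper928.Sep.Main
set_option autoImplicit false

/-!
Free alternative algebras of infinite rank over a commutative ring in which `6` is not nilpotent are not
separated: the intersection of the associator ideal with the largest nuclear ideal is nonzero.

Proof outline. Let `x` be the generic odd element of a super-alternative ring, `t = x x`, `c = (x,x,x)`,
`f = (t,x,x)` and `u = [c,f]`. Three certificates (in multiplication operators, checked by the kernel) show, up to
factors whose prime divisors are `2` and `3`: `(c,f,y) = 0`; `48 u y = [P(y),x] + [Q(y),t] +` nuclear element for even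
`y`; `(P(y),x,z) + (Q(y),t,z) = 0`. Hence `u` and all `u y` are nuclear and `u` annihilates all associators, so it
generates an ideal contained in the nucleus. Tensoring with an exterior algebra one gets a multilinear alternating
polynomial of degree 7 with these properties up to a factor `2^14 3^8`. It is not zero in the free alternative
algebra, since it is not zero in the Grassmann envelope of an explicit alternative superalgebra of rank 56 over the
integers.
-/

namespace Pool.Agent.Results.MP_c4e11e_al.NotSeparatedSix
open Pool.Agent.Helper928.Nuc.Free

theorem result (Φ : Type) [CommRing Φ] (h6 : ¬ IsNilpotent (6 : Φ)) (X : Type) [Infinite X] :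
    Uideal Φ (FreeAlt Φ X) ⊓ Dideal Φ (FreeAlt Φ X) ≠ ⊥ := by
  intro h
  obtain ⟨z, hz, hD, hU⟩ := Pool.Agent.Helper928.Sep.Main.main Φ h6 X
    (Fin.valEmbedding.trans (Infinite.natEmbedding X))
  exact hz ((Submodule.mem_bot Φ).mp (h ▸ (⟨hU, hD⟩ : z ∈ Uideal Φ (FreeAlt Φ X) ⊓ Dideal Φ (FreeAlt Φ X))))

end Pool.Agent.Results.MP_c4e11e_al.NotSeparatedSix
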